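import Mathlib
import Pool.Agent.Lib.MP_8879ae_al.Defs
import Pool.Agent.Lib.MP_8879ae_al.Psi
import Pool.Agent.Lib.MP_8879ae_al.FinalLoc

/-!
# A homomorphism `U(W) → Ã_2` that factors through no `Ψ^W_𝐧`

This answers question Q2 in the negative. The homomorphism is the action of vector fields on the
punctured line, on symmetric functions of two points: `f∂` goes to
`(f(x₁) + f(x₂)) ∂/∂s₁ + (x₂ f(x₁) + x₁ f(x₂)) ∂/∂s₂`, where `s₁ = x₁ + x₂` and `s₂ = x₁x₂` are the
generators `t_1`, `t_2` of `Ã_2`.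
-/

open scoped TensorProduct
open Polynomial LaurentPolynomial

namespace Pool.Agent.Results.MP_8879ae_al.NoFactorW

open Pool.Agent.WittWeyl

attribute [local instance 100] LieRing.ofAssociativeRing

/-- There is a ring homomorphism `φ : U(W) → Ã_2` such that, for every `ℓ` and every
`𝐧 = (n_1, …, n_ℓ)`, there is no ring homomorphism `φ̄ : Ã_ℓ ⊗ U(𝔤_𝐧) → Ã_2` with
`φ = φ̄ ∘ Ψ^W_𝐧`. -/
theorem result :
    ∃ φ : UniversalEnvelopingAlgebra ℂ WFull →+* WeylLoc 2,
      ∀ (l : ℕ) (n : Fin l → ℕ),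
        ¬ ∃ φbar : TargetLoc n →+* WeylLoc 2, φ = φbar.comp (PsiLoc n).toRingHom := by
  refine ⟨(UniversalEnvelopingAlgebra.lift ℂ phiLoc).toRingHom, ?_⟩
  rintro l n ⟨φbar, hφ⟩
  have hφ' : ∀ u, UniversalEnvelopingAlgebra.lift ℂ phiLoc u = φbar (PsiLoc n u) := fun u =>
    DFunLike.congr_fun hφ u
  let φbar' : TargetLoc n →ₐ[ℂ] WeylLoc 2 :=
    { φbar with
      commutes' := fun c => by
        have h := hφ' (algebraMap ℂ _ c)
        rw [AlgHom.commutes, AlgHom.commutes] at h
        exact h.symm }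
  refine ZLau.no_factor ZLau_good n (repLoc.comp φbar')
    (fun j => (WeylLoc.ev j).comp toLaurentAlg) WeylLoc.d (gV n) ?_ ?_ ?_
  · intro i j
    exact WeylLoc.ev_comm i j _ _
  · intro j
    exact repLoc_mem _
  · intro f
    have h := hφ' (UniversalEnvelopingAlgebra.ι ℂ (toLaurent f • laurentD))
    rw [UniversalEnvelopingAlgebra.lift_ι_apply, PsiLoc,
      UniversalEnvelopingAlgebra.lift_ι_apply, phiLoc_mk, psiLocLie_mk] at h
    have h2 := congrArg repLoc h
    rw [repLoc_phiE, evL_toLaurent] at h2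
    refine h2.trans ?_
    have h3 : psiLocFun n (toLaurent f) = ∑ j, (TargetLoc.tmul
        (((WeylLoc.ev j).comp toLaurentAlg) f * WeylLoc.d j) 1 +
        ∑ i ∈ Finset.range (n j), TargetLoc.tmul
          (((WeylLoc.ev j).comp toLaurentAlg) (dpow polyD (i + 1) f)) (gV n j i)) := by
      simp only [psiLocFun, dpow_toLaurent]
      rfl
    rw [h3]
    rfl

end Pool.Agent.Results.MP_8879ae_al.NoFactorW
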