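import Mathlib
import Pool.Agent.Lib.MP_8879ae_al.Defs
import Pool.Agent.Lib.MP_8879ae_al.Psi
import Pool.Agent.Lib.MP_8879ae_al.Final

/-!
# A homomorphism `U(W_{-1}) → A_2` that factors through no `Ψ_𝐧`

This answers question Q1 in the negative. The homomorphism is the action of vector fields on the
line, on symmetric functions of two points: `f∂` goes to
`(f(x₁) + f(x₂)) ∂/∂s₁ + (x₂ f(x₁) + x₁ f(x₂)) ∂/∂s₂`, where `s₁ = x₁ + x₂` and `s₂ = x₁x₂` are the
generators `t_1`, `t_2` of `A_2`.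
-/

open scoped TensorProduct
open Polynomial

namespace Pool.Agent.Results.MP_8879ae_al.NoFactorWNeg

open Pool.Agent.WittWeyl

attribute [local instance 100] LieRing.ofAssociativeRing

/-- There is a ring homomorphism `φ : U(W_{-1}) → A_2` such that, for every `ℓ` and every
`𝐧 = (n_1, …, n_ℓ)`, there is no ring homomorphism `φ̄ : A_ℓ ⊗ U(𝔤_𝐧) → A_2` with
`φ = φ̄ ∘ Ψ_𝐧`. -/
theorem result :
    ∃ φ : UniversalEnvelopingAlgebra ℂ WNeg →+* Weyl 2,
      ∀ (l : ℕ) (n : Fin l → ℕ),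
        ¬ ∃ φbar : TargetNeg n →+* Weyl 2, φ = φbar.comp (PsiNeg n).toRingHom := by
  refine ⟨(UniversalEnvelopingAlgebra.lift ℂ phiNeg).toRingHom, ?_⟩
  rintro l n ⟨φbar, hφ⟩
  have hφ' : ∀ u, UniversalEnvelopingAlgebra.lift ℂ phiNeg u = φbar (PsiNeg n u) := fun u =>
    DFunLike.congr_fun hφ u
  let φbar' : TargetNeg n →ₐ[ℂ] Weyl 2 :=
    { φbar with
      commutes' := fun c => by
        have h := hφ' (algebraMap ℂ _ c)
        rw [AlgHom.commutes, AlgHom.commutes] at h
        exact h.symm }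
  refine ZPoly.no_factor ZPoly_good n (repPoly.comp φbar') Weyl.ev Weyl.d (gV n) ?_ ?_ ?_
  · intro i j
    exact Weyl.ev_comm i j X X
  · intro j
    exact repPoly_mem _
  · intro f
    have h := hφ' (UniversalEnvelopingAlgebra.ι ℂ (Polynomial.mkDerivation ℂ f))
    rw [UniversalEnvelopingAlgebra.lift_ι_apply, PsiNeg,
      UniversalEnvelopingAlgebra.lift_ι_apply, phiNeg_mk, psiNegLie_mk] at h
    have h2 := congrArg repPoly h
    rw [repPoly_phiE] at h2
    exact h2

end Pool.Agent.Results.MP_8879ae_al.NoFactorWNeg
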